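import Pool.Agent.T6.H14.AM.Amp

/-!
# The Alperin–McKay–Navarro conjecture follows from its approximate form

`O` is a valuation ring of `ℂ` whose maximal ideal `O.nonunits` contains the prime `p`; it plays the
role of a `p`-modular system. A datum `X : Dat` consists of a group `X.G`, a subgroup `X.D`, a set
`X.B` of characters of `X.G` and a set `X.b` of characters of the normaliser of `X.D`;
`X.IsBrauer p O` says that `X.G` is finite, `X.B` is a `p`-block, `X.D` is a defect group of it and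
`X.b` is the Brauer correspondent of `X.B`. The sets `X.ht0 p`, `X.ht0' p` are the sets `Irr₀(B)`,
`Irr₀(b)` of characters of height zero, and `gal σ B` is the image of the block `B` under `σ`.

Proof. If the conjecture fails for a block, then for some block `B` of a group `G` which is fixed by
all field automorphisms and some group `S` of field automorphisms of small index in `𝓗` the numbers
`N`, `N'` of the `S`-fixed characters in `Irr₀(B)` and `Irr₀(b)` are different
(`RationalBlocksSuffice`). The group `S` only matters through its image in the Galois group of the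
`|G|`-th roots of unity. A subgroup `S_k` of small index in the group `𝓗` for `G^k` has the same
image; here one uses that subgroups of abelian groups generated by two elements are generated by
two elements. For the block `B^k` of `G^k`, `S_k` fixes `N^k` and `N'^k` characters, and
the ratio `(N / N')^k` is not bounded by `K |G^k|^ε` if `ε` is small.
-/

set_option autoImplicit false

noncomputable section

namespace Pool.Agent.Results.MP_7f1e7e_al.ApproximateEqualitySuffices

open Pool.Agent.Q259.BW (Dat EquivBij)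
open Pool.Agent.Q288.MB (gal)

/-- The group `𝓗` for groups of order `n`: the `σ` for which there is an `e ≥ 0` with
`σ(ξ) = ξ ^ (p ^ e)` for all `m`-th roots of unity `ξ`, where `m` is the `p'`-part of `n`. -/
def H (p n : ℕ) : Set (ℂ ≃+* ℂ) :=
  {σ | ∃ e : ℕ, ∀ ξ : ℂ, ξ ^ (n / p ^ n.factorization p) = 1 → σ ξ = ξ ^ p ^ e}

/-- The assertion of the Alperin–McKay–Navarro conjecture for the block `X.B`: there is a bijection
`Irr₀(B) → Irr₀(b)` commuting with `𝓗_B`. -/
def AMN (p : ℕ) (X : Dat) : Prop :=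
  EquivBij {σ | σ ∈ H p (Nat.card X.G) ∧ gal σ X.B = X.B} (X.ht0 p) (X.ht0' p)

/-- `S` is the group of the automorphisms of `ℂ` whose restrictions to the field `ℚ_n` of the
`n`-th roots of unity belong to a certain subgroup of `𝓗 ≤ Gal(ℚ_n/ℚ)`, that is, `S` is a subgroup
of `H p n` which contains all automorphisms fixing the `n`-th roots of unity. The quotient `𝓗 / S`
is generated by the classes of two elements `τ₁, τ₂` (with `τ₂ = 1` if `p ≠ 2`, so that it is cyclic
for odd `p`), and its exponent divides a number `a` all of whose prime divisors divide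
`p (p - 1)`. -/
def SmallIndex (p n : ℕ) (S : Subgroup (ℂ ≃+* ℂ)) : Prop :=
  (S : Set (ℂ ≃+* ℂ)) ⊆ H p n ∧
  (∀ τ : ℂ ≃+* ℂ, (∀ ξ : ℂ, ξ ^ n = 1 → τ ξ = ξ) → τ ∈ S) ∧
  (∃ a : ℕ, (∀ q : ℕ, q.Prime → q ∣ a → q ∣ p * (p - 1)) ∧ ∀ τ ∈ H p n, τ ^ a ∈ S) ∧
  ∃ τ₁ ∈ H p n, ∃ τ₂ ∈ H p n, (p ≠ 2 → τ₂ = 1) ∧
    ∀ σ ∈ H p n, ∃ k l : ℕ, (τ₁ ^ k * τ₂ ^ l)⁻¹ * σ ∈ S

/-- The number of the elements of `A` which are fixed by `S`. -/
def numFixed (S : Subgroup (ℂ ≃+* ℂ)) {G : Type} (A : Set (G → ℂ)) : ℕ :=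
  Nat.card {χ // χ ∈ A ∧ ∀ σ ∈ S, ∀ g, σ (χ g) = χ g}

/-- Let `p` be a prime, `𝒢` a class of groups closed under isomorphisms, direct powers, direct
products with cyclic groups of order prime to `p` and wreath products with finite abelian groups,
and `𝒟` a class of groups closed under isomorphisms and direct powers; for example, all groups.
The following are equivalent, where `B` is a `p`-block of a finite group `G` in `𝒢` with a defect
group in `𝒟`:
* the Alperin–McKay–Navarro conjecture holds for all `B`;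
* for every `ε > 0` there is a `K` such that for all `B` fixed by all field automorphisms and all
  subgroups `S` of `𝓗` such that `𝓗 / S` is generated by two elements, by one element if `p` is
  odd, and has an exponent divisible only by primes dividing `p (p - 1)`, the numbers `N`, `N'` of
  the characters in `Irr₀(B)` and in `Irr₀(b)` fixed by `S` satisfy `N ≤ K |G|^ε N'` and
  `N' ≤ K |G|^ε N`. -/
theorem result (p : ℕ) [Fact p.Prime] (O : ValuationSubring ℂ) (hpO : (p : ℂ) ∈ O.nonunits)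
    (𝒢 𝒟 : (P : Type) → Group P → Prop)
    (hG1 : ∀ (P Q : Type) [i : Group P] [j : Group Q], Nonempty (P ≃* Q) → 𝒢 P i → 𝒢 Q j)
    (hG2 : ∀ (P : Type) [i : Group P] (k : ℕ), 0 < k → 𝒢 P i → 𝒢 (Fin k → P) inferInstance)
    (hG3 : ∀ (P : Type) [i : Group P] (r : ℕ), ¬ p ∣ r → 𝒢 P i →
      𝒢 (P × Multiplicative (ZMod r)) inferInstance)
    (hG4 : ∀ (P A : Type) [i : Group P] [Group A] [Finite A], (∀ a b : A, a * b = b * a) →
      𝒢 P i → 𝒢 (P ≀ᵣ A) inferInstance)
    (hD1 : ∀ (P Q : Type) [i : Group P] [j : Group Q], Nonempty (P ≃* Q) → 𝒟 P i → 𝒟 Q j)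
    (hD2 : ∀ (P : Type) [i : Group P] (k : ℕ), 0 < k → 𝒟 P i → 𝒟 (Fin k → P) inferInstance) :
    (∀ X : Dat, X.IsBrauer p O → 𝒢 X.G inferInstance → 𝒟 X.D inferInstance → AMN p X) ↔
    ∀ ε : ℝ, 0 < ε → ∃ K : ℝ,
      ∀ X : Dat, X.IsBrauer p O → 𝒢 X.G inferInstance → 𝒟 X.D inferInstance →
        (∀ σ : ℂ ≃+* ℂ, gal σ X.B = X.B) →
        ∀ S : Subgroup (ℂ ≃+* ℂ), SmallIndex p (Nat.card X.G) S →
          (numFixed S (X.ht0 p) : ℝ) ≤ K * (Nat.card X.G : ℝ) ^ ε * numFixed S (X.ht0' p) ∧
          (numFixed S (X.ht0' p) : ℝ) ≤ K * (Nat.card X.G : ℝ) ^ ε * numFixed S (X.ht0 p) := by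
  have h := Pool.Agent.T6.H14.AM.main_tfae hpO
    (Pool.Agent.T6.H14.AM.closed_classes p 𝒢 𝒟 hG1 hG3 hG4 hD1 hD2)
  have h13 := h.out 0 2
  constructor
  · intro h1 ε hε
    obtain ⟨K, hK⟩ := Pool.Agent.T6.H14.AM.hypA_of_hypN
      (h13.mp fun X hX hC => h1 X hX hC.1 hC.2) ε hε
    exact ⟨K, fun X hX hG hD hst S hS =>
      hK X hX ⟨hG, hD⟩ hst S ⟨hS.1, hS.2.2.1, hS.2.2.2⟩ hS.2.1⟩
  · intro h1
    have h2 := Pool.Agent.T6.H14.AM.hypN_of_hypA (O := O) (p := p) hpO
      (Pool.Agent.T6.H14.AM.powers_classes 𝒢 𝒟 hG2 hD1 hD2) (fun ε hε => by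
        obtain ⟨K, hK⟩ := h1 ε hε
        exact ⟨K, fun Y hY hYC hst S hS h0 =>
          hK Y hY hYC.1 hYC.2 hst S ⟨hS.1, h0, hS.2.1, hS.2.2⟩⟩)
    exact fun X hX hG hD => h13.mpr h2 X hX ⟨hG, hD⟩

end Pool.Agent.Results.MP_7f1e7e_al.ApproximateEqualitySuffices
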