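import Pool.Agent.T6.H14.AM.Amp

/-!
# The Alperin–McKay–Navarro conjecture reduces to rational blocks and to characters whose
# `𝓗`-orbit is cyclic

`O` is a valuation ring of `ℂ` whose maximal ideal `O.nonunits` contains the prime `p`; it plays the
role of a `p`-modular system. A datum `X : Dat` consists of a group `X.G`, a subgroup `X.D`, a set
`X.B` of characters of `X.G` and a set `X.b` of characters of the normaliser of `X.D`;
`X.IsBrauer p O` says that `X.G` is finite, `X.B` is a `p`-block, `X.D` is a defect group of it and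
`X.b` is the Brauer correspondent of `X.B`. The sets `X.ht0 p`, `X.ht0' p` are the sets `Irr₀(B)`,
`Irr₀(b)` of characters of height zero, and `gal σ B` is the image of the block `B` under `σ`.

Proof. Let `B` be a block of `G` and `A` the (finite, abelian) quotient of `Aut ℂ` by the stabiliser
of `B`. The product of the blocks `σ_a(B)`, `a ∈ A`, of `G^A` has trivial stabiliser in `G ≀ A`
modulo `G^A`, and by Fong–Reynolds induction it gives a block of `G ≀ A` which is stable under all
field automorphisms. For a group `S` of field automorphisms the number of its `S`-fixed characters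
of height zero is a power of the number of the characters in `Irr₀(B)` fixed by the subgroup of `S`
which fixes `B`. If `B` is first multiplied by a faithful character of the group of `(p^f - 1)`-th
roots of unity, the automorphisms fixing the new block act on the roots of unity of order prime to
`p` by powers of `ξ ↦ ξ^(p^f)`. So all subgroups `K` of `𝓗` are obtained as intersections
`K = K' ∩ I K` of such stabilisers (they contain the inertia group `I`) with groups `K'` for which
`𝓗 / K'` is embedded into a product of `d` cyclic groups by characters faithful on `I K / K`,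
where `d` is the number of generators of `I`.
-/

set_option autoImplicit false

noncomputable section

namespace Pool.Agent.Results.MP_7f1e7e_al.RationalBlocksSuffice

open Pool.Agent.Q259.BW (Dat EquivBij Fx)
open Pool.Agent.Q288.MB (gal)

/-- The group `𝓗` for groups of order `n`: the `σ` for which there is an `e ≥ 0` with
`σ(ξ) = ξ ^ (p ^ e)` for all `m`-th roots of unity `ξ`, where `m` is the `p'`-part of `n`. -/
def H (p n : ℕ) : Set (ℂ ≃+* ℂ) :=
  {σ | ∃ e : ℕ, ∀ ξ : ℂ, ξ ^ (n / p ^ n.factorization p) = 1 → σ ξ = ξ ^ p ^ e}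

/-- The assertion of the Alperin–McKay–Navarro conjecture for the block `X.B`: there is a bijection
`Irr₀(B) → Irr₀(b)` commuting with `𝓗_B`. -/
def AMN (p : ℕ) (X : Dat) : Prop :=
  EquivBij {σ | σ ∈ H p (Nat.card X.G) ∧ gal σ X.B = X.B} (X.ht0 p) (X.ht0' p)

/-- The set of the conjugates of `χ` under the elements of `Γ`. -/
def conjugates (Γ : Set (ℂ ≃+* ℂ)) {G : Type} (χ : G → ℂ) : Set (G → ℂ) :=
  {ψ | ∃ σ ∈ Γ, ψ = fun g => σ (χ g)}

/-- The `χ ∈ A` such that only primes dividing `p (p - 1)` divide the number of `Γ`-conjugates of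
`χ`, and for which there are `τ₁, τ₂ ∈ Γ`, with `τ₂ = 1` if `p ≠ 2`, such that all `Γ`-conjugates of
`χ` are of the form `τ₁ ^ k τ₂ ^ l χ`. -/
def Few (p : ℕ) (Γ : Set (ℂ ≃+* ℂ)) {G : Type} (A : Set (G → ℂ)) : Set (G → ℂ) :=
  {χ | χ ∈ A ∧ (∀ q : ℕ, q.Prime → q ∣ Nat.card (conjugates Γ χ) → q ∣ p * (p - 1)) ∧
    ∃ τ₁ ∈ Γ, ∃ τ₂ ∈ Γ, (p ≠ 2 → τ₂ = 1) ∧ ∀ σ ∈ Γ, ∃ k l : ℕ,
      (fun g => σ (χ g)) = fun g => (τ₁ ^ k * τ₂ ^ l : ℂ ≃+* ℂ) (χ g)}

/-- `S` is the group of the automorphisms of `ℂ` whose restrictions to the field `ℚ_n` of the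
`n`-th roots of unity belong to a certain subgroup of `𝓗 ≤ Gal(ℚ_n/ℚ)`, that is, `S` is a subgroup
of `H p n` which contains all automorphisms fixing the `n`-th roots of unity. The quotient `𝓗 / S`
is generated by the classes of two elements `τ₁, τ₂` (with `τ₂ = 1` if `p ≠ 2`, so that it is cyclic
for odd `p`), and its exponent divides a number `a` all of whose prime divisors divide
`p (p - 1)`. -/
def SmallIndex (p n : ℕ) (S : Subgroup (ℂ ≃+* ℂ)) : Prop :=
  (S : Set (ℂ ≃+* ℂ)) ⊆ H p n ∧
  (∀ τ : ℂ ≃+* ℂ, (∀ ξ : ℂ, ξ ^ n = 1 → τ ξ = ξ) → τ ∈ S) ∧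
  (∃ a : ℕ, (∀ q : ℕ, q.Prime → q ∣ a → q ∣ p * (p - 1)) ∧ ∀ τ ∈ H p n, τ ^ a ∈ S) ∧
  ∃ τ₁ ∈ H p n, ∃ τ₂ ∈ H p n, (p ≠ 2 → τ₂ = 1) ∧
    ∀ σ ∈ H p n, ∃ k l : ℕ, (τ₁ ^ k * τ₂ ^ l)⁻¹ * σ ∈ S

/-- The number of Galois conjugates of the block `B`. -/
def numConj {G : Type} (B : Set (G → ℂ)) : ℕ :=
  Nat.card {B' : Set (G → ℂ) // ∃ σ : ℂ ≃+* ℂ, B' = gal σ B}

/-- Let `p` be a prime. (1) For every `p`-block `B` of a finite group `G` with defect group `D` and
with `k` Galois conjugates there is a `p`-block of a group of order `|G|^k k` with a defect group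
isomorphic to `D^k` which is fixed by all field automorphisms, such that the Alperin–McKay–Navarro
conjecture holds for `B` if and only if it holds for this block.
(2) Let `𝒢` be a class of groups closed under isomorphisms, direct products with cyclic groups of
order prime to `p` and wreath products with finite abelian groups, and `𝒟` a class of groups closed
under isomorphisms and direct powers `P^k`, `k ≥ 1`; for example, all groups. The following are
equivalent, where `B` is a `p`-block of a finite group `G` in `𝒢` with a defect group in `𝒟`: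
* the Alperin–McKay–Navarro conjecture holds for all `B`;
* for all `B` fixed by all field automorphisms there is an `𝓗`-equivariant bijection between the
  sets of those characters in `Irr₀(B)` and `Irr₀(b)` whose number of `𝓗`-conjugates is divisible
  only by primes dividing `p (p - 1)` and on whose conjugates `𝓗` acts as a group generated by two
  elements, as a cyclic group if `p` is odd;
* for all `B` fixed by all field automorphisms and all subgroups `S` of `𝓗` such that `𝓗 / S` is
  generated by two elements, by one element if `p` is odd, and has an exponent divisible only by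
  primes dividing `p (p - 1)`, the sets `Irr₀(B)` and `Irr₀(b)` contain the same number of
  characters fixed by `S`. -/
theorem result (p : ℕ) [Fact p.Prime] (O : ValuationSubring ℂ) (hpO : (p : ℂ) ∈ O.nonunits) :
    (∀ X : Dat, X.IsBrauer p O → ∃ Y : Dat, Y.IsBrauer p O ∧ (∀ σ : ℂ ≃+* ℂ, gal σ Y.B = Y.B) ∧
      Nonempty (Y.D ≃* (Fin (numConj X.B) → X.D)) ∧
      Nat.card Y.G = Nat.card X.G ^ numConj X.B * numConj X.B ∧ (AMN p X ↔ AMN p Y)) ∧
    ∀ 𝒢 𝒟 : (P : Type) → Group P → Prop,
      (∀ (P Q : Type) [i : Group P] [j : Group Q], Nonempty (P ≃* Q) → 𝒢 P i → 𝒢 Q j) →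
      (∀ (P : Type) [i : Group P] (r : ℕ), ¬ p ∣ r → 𝒢 P i →
        𝒢 (P × Multiplicative (ZMod r)) inferInstance) →
      (∀ (P A : Type) [i : Group P] [Group A] [Finite A], (∀ a b : A, a * b = b * a) → 𝒢 P i →
        𝒢 (P ≀ᵣ A) inferInstance) →
      (∀ (P Q : Type) [i : Group P] [j : Group Q], Nonempty (P ≃* Q) → 𝒟 P i → 𝒟 Q j) →
      (∀ (P : Type) [i : Group P] (k : ℕ), 0 < k → 𝒟 P i → 𝒟 (Fin k → P) inferInstance) →
      [∀ X : Dat, X.IsBrauer p O → 𝒢 X.G inferInstance → 𝒟 X.D inferInstance → AMN p X,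
       ∀ X : Dat, X.IsBrauer p O → 𝒢 X.G inferInstance → 𝒟 X.D inferInstance →
        (∀ σ : ℂ ≃+* ℂ, gal σ X.B = X.B) →
        EquivBij (H p (Nat.card X.G)) (Few p (H p (Nat.card X.G)) (X.ht0 p))
          (Few p (H p (Nat.card X.G)) (X.ht0' p)),
       ∀ X : Dat, X.IsBrauer p O → 𝒢 X.G inferInstance → 𝒟 X.D inferInstance →
        (∀ σ : ℂ ≃+* ℂ, gal σ X.B = X.B) →
        ∀ S : Subgroup (ℂ ≃+* ℂ), SmallIndex p (Nat.card X.G) S →
          Nat.card {χ // χ ∈ X.ht0 p ∧ ∀ σ ∈ S, ∀ g, σ (χ g) = χ g} =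
            Nat.card {χ // χ ∈ X.ht0' p ∧ ∀ σ ∈ S, ∀ g, σ (χ g) = χ g}].TFAE := by
  refine ⟨Pool.Agent.T6.H14.AM.companion hpO, ?_⟩
  intro 𝒢 𝒟 hG1 hG2 hG3 hD1 hD2
  have h := Pool.Agent.T6.H14.AM.main_tfae hpO
    (Pool.Agent.T6.H14.AM.closed_classes p 𝒢 𝒟 hG1 hG2 hG3 hD1 hD2)
  have h12 := h.out 0 1
  have h13 := h.out 0 2
  tfae_have 1 ↔ 2 := by
    constructor
    · exact fun h1 X hX hG hD => h12.mp (fun X hX hC => h1 X hX hC.1 hC.2) X hX ⟨hG, hD⟩
    · exact fun h1 X hX hG hD => h12.mpr (fun X hX hC => h1 X hX hC.1 hC.2) X hX ⟨hG, hD⟩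
  tfae_have 1 ↔ 3 := by
    constructor
    · exact fun h1 X hX hG hD hst S hS =>
        Pool.Agent.T6.H14.AM.hypN_iff.mpr (h13.mp (fun X hX hC => h1 X hX hC.1 hC.2)) X hX
          ⟨hG, hD⟩ hst S ⟨hS.1, hS.2.2.1, hS.2.2.2⟩ hS.2.1
    · exact fun h1 X hX hG hD => h13.mpr (Pool.Agent.T6.H14.AM.hypN_iff.mp
        fun Y hY hYC hst S hS h0 => h1 Y hY hYC.1 hYC.2 hst S ⟨hS.1, h0, hS.2.1, hS.2.2⟩) X hX
          ⟨hG, hD⟩
  tfae_finish

end Pool.Agent.Results.MP_7f1e7e_al.RationalBlocksSuffice
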